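import Pool.Agent.P.MP_1b6414_an.Concrete

/-! The commutator type and the Levi form type of a `(1,0)` vector field agree on a
pseudoconvex CR manifold of hypersurface type (local coordinate form). -/

namespace Pool.Agent.Results.MP_1b6414_an.TypesEqual

open scoped ContDiff

/-- The complex vector field `V = ∑ V_i ∂/∂x_i` applied to the complex function `f`. -/
noncomputable def act {N : ℕ} (V : (Fin N → ℝ) → Fin N → ℂ) (f : (Fin N → ℝ) → ℂ)
    (x : Fin N → ℝ) : ℂ :=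
  ∑ i, V x i * fderiv ℝ f x (Pi.single i 1)

/-- The Lie bracket of two complex vector fields. -/
noncomputable def bracket {N : ℕ} (V W : (Fin N → ℝ) → Fin N → ℂ) (x : Fin N → ℝ) (i : Fin N) :
    ℂ :=
  act V (fun y => W y i) x - act W (fun y => V y i) x

/-- The conjugate vector field. -/
def conjVF {N : ℕ} (V : (Fin N → ℝ) → Fin N → ℂ) (x : Fin N → ℝ) (i : Fin N) : ℂ :=
  starRingEnd ℂ (V x i)

/-- The pairing of a real one-form with a complex vector field. -/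
noncomputable def pair {N : ℕ} (η : (Fin N → ℝ) → Fin N → ℝ) (V : (Fin N → ℝ) → Fin N → ℂ)
    (x : Fin N → ℝ) : ℂ :=
  ∑ i, (η x i : ℂ) * V x i

/-- `L` or its conjugate. -/
def pick {N : ℕ} (L : (Fin N → ℝ) → Fin N → ℂ) (b : Bool) : (Fin N → ℝ) → Fin N → ℂ :=
  if b then L else conjVF L

/-- The commutator type `t(L,p)`. -/
noncomputable def commType {N : ℕ} (η : (Fin N → ℝ) → Fin N → ℝ) (L : (Fin N → ℝ) → Fin N → ℂ)
    (p : Fin N → ℝ) : ℕ∞ :=
  sInf {k | ∃ (b : Bool) (l : List Bool), k = (l.length + 1 : ℕ) ∧ 2 ≤ k ∧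
    pair η (l.foldr (fun c V => bracket (pick L c) V) (pick L b)) p ≠ 0}

/-- The Levi form type `c(L,p)`. -/
noncomputable def leviType {N : ℕ} (η : (Fin N → ℝ) → Fin N → ℝ) (L : (Fin N → ℝ) → Fin N → ℂ)
    (p : Fin N → ℝ) : ℕ∞ :=
  sInf {k | ∃ l : List Bool, k = (2 + l.length : ℕ) ∧
    l.foldr (fun c f => act (pick L c) f) (pair η (bracket L (conjVF L))) p ≠ 0}

/-- `Z_1, …, Z_n` is a smooth frame on `U` of a CR structure of hypersurface type. -/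
def IsCRFrame {n : ℕ} (U : Set (Fin (2 * n + 1) → ℝ))
    (Z : Fin n → (Fin (2 * n + 1) → ℝ) → Fin (2 * n + 1) → ℂ) : Prop :=
  (∀ j, ContDiffOn ℝ ∞ (Z j) U) ∧
  (∀ x ∈ U, LinearIndependent ℂ (Sum.elim (fun j => Z j x) (fun j => conjVF (Z j) x))) ∧
  ∀ x ∈ U, ∀ j k, bracket (Z j) (Z k) x ∈ Submodule.span ℂ (Set.range fun l => Z l x)

/-- `η` is a smooth nonvanishing real one-form on `U` annihilating `T^{1,0} ⊕ T^{0,1}`. -/
def IsCharForm {n : ℕ} (U : Set (Fin (2 * n + 1) → ℝ))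
    (Z : Fin n → (Fin (2 * n + 1) → ℝ) → Fin (2 * n + 1) → ℂ)
    (η : (Fin (2 * n + 1) → ℝ) → Fin (2 * n + 1) → ℝ) : Prop :=
  ContDiffOn ℝ ∞ η U ∧
    ∀ x ∈ U, η x ≠ 0 ∧ ∀ j, pair η (Z j) x = 0 ∧ pair η (conjVF (Z j)) x = 0

/-- For some choice of the form, the Levi form is positive semidefinite at every point of `U`. -/
def IsPseudoconvex {n : ℕ} (U : Set (Fin (2 * n + 1) → ℝ))
    (Z : Fin n → (Fin (2 * n + 1) → ℝ) → Fin (2 * n + 1) → ℂ) : Prop :=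
  ∃ η, IsCharForm U Z η ∧ ∀ x ∈ U, ∀ a : Fin n → ℂ, 0 ≤ (∑ j, ∑ k, a j * starRingEnd ℂ (a k) *
    (-Complex.I * pair η (bracket (Z j) (conjVF (Z k))) x)).re

theorem sInf_eq_of_iff {A B : Set ℕ∞} (hA : ∀ k ∈ A, k ≠ ⊤) (hB : ∀ k ∈ B, k ≠ ⊤)
    (h : ∀ m : ℕ, (∀ k ∈ A, ¬ k ≤ m) ↔ ∀ k ∈ B, ¬ k ≤ m) : sInf A = sInf B := by
  have key : ∀ {A B : Set ℕ∞}, (∀ k ∈ B, k ≠ ⊤) →
      (∀ m : ℕ, (∀ k ∈ A, ¬ k ≤ m) → ∀ k ∈ B, ¬ k ≤ m) → sInf A ≤ sInf B := by
    intro A B hB h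
    refine le_sInf fun k hk => ?_
    obtain ⟨m, rfl⟩ := ENat.ne_top_iff_exists.1 (hB k hk)
    by_contra hc
    exact h m (fun j hj hjm => hc ((sInf_le hj).trans hjm)) _ hk le_rfl
  exact le_antisymm (key hB fun m => (h m).1) (key hA fun m => (h m).2)

theorem result (n : ℕ) (U : Set (Fin (2 * n + 1) → ℝ)) (hU : IsOpen U)
    (Z : Fin n → (Fin (2 * n + 1) → ℝ) → Fin (2 * n + 1) → ℂ) (hZ : IsCRFrame U Z)
    (hpsc : IsPseudoconvex U Z)
    (η : (Fin (2 * n + 1) → ℝ) → Fin (2 * n + 1) → ℝ) (hη : IsCharForm U Z η)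
    (L : (Fin (2 * n + 1) → ℝ) → Fin (2 * n + 1) → ℂ) (hL : ContDiffOn ℝ ∞ L U)
    (hLZ : ∀ x ∈ U, L x ∈ Submodule.span ℂ (Set.range fun j => Z j x))
    (p : Fin (2 * n + 1) → ℝ) (hp : p ∈ U) :
    commType η L p = leviType η L p := by
  obtain ⟨η₀, h₀, hpos⟩ := hpsc
  have hn := hU.mem_nhds hp
  have key := Pool.Agent.P.MP_1b6414_an.concrete rfl Z (fun j => (hZ.1 j).contDiffAt hn)
    (hZ.2.1 p hp) (fun j k => Filter.mem_of_superset hn fun x hx => hZ.2.2 x hx j k) η₀ η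
    (h₀.1.contDiffAt hn) (hη.1.contDiffAt hn) (h₀.2 p hp).1 (hη.2 p hp).1
    (fun j => Filter.mem_of_superset hn fun x hx => ((h₀.2 x hx).2 j).1)
    (fun j => Filter.mem_of_superset hn fun x hx => ((hη.2 x hx).2 j).1)
    (Filter.mem_of_superset hn hpos) L (hL.contDiffAt hn) (Filter.mem_of_superset hn hLZ)
  have h1 : ∀ b, pair η (pick L b) p = 0 := by
    obtain ⟨a, ha⟩ := (Submodule.mem_span_range_iff_exists_fun _).1 (hLZ p hp)
    have h2 : pair η L p = 0 := by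
      have : pair η L p = ∑ j, a j * pair η (Z j) p := by
        simp only [pair, ← ha, Finset.sum_apply, Pi.smul_apply, smul_eq_mul, Finset.mul_sum]
        rw [Finset.sum_comm]
        exact Finset.sum_congr rfl fun j _ => Finset.sum_congr rfl fun i _ => by ring
      simp [this, fun j => ((hη.2 p hp).2 j).1]
    intro b
    cases b
    · have := congrArg (starRingEnd ℂ) h2
      simpa [pair, pick, conjVF] using this
    · exact h2
  refine sInf_eq_of_iff ?_ ?_ fun m => ⟨fun h => ?_, fun h => ?_⟩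
  · rintro _ ⟨b, l, rfl, -⟩; exact ENat.natCast_ne_top _
  · rintro _ ⟨l, rfl, -⟩; exact ENat.natCast_ne_top _
  · rintro _ ⟨w, rfl, hw⟩ hm
    refine hw ((key m).1 (fun b l hl => ?_) w (by rw [add_comm]; exact_mod_cast hm))
    rcases l with _ | ⟨c, l⟩
    · exact h1 b
    · by_contra hc
      refine h _ ⟨b, c :: l, rfl, ?_, hc⟩ (by exact_mod_cast hl)
      exact_mod_cast (by simp : 2 ≤ (c :: l).length + 1)
  · rintro _ ⟨b, l, rfl, -, hl⟩ hm
    refine hl ((key m).2 (fun w hw => ?_) b l (by exact_mod_cast hm))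
    by_contra hc
    exact h _ ⟨w, rfl, hc⟩ (by rw [add_comm]; exact_mod_cast hw)

end Pool.Agent.Results.MP_1b6414_an.TypesEqual
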